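import Pool.Agent.KS6_11.S.Glue

/-!
# Almost all elliptic curves are independent of an arbitrary motive

Let `E_i = ℂ / Λ_i` (`i ∈ ι`, any index set, for example representatives of ALL isogeny classes) be pairwise non-isogenous
elliptic curves over the field `ℚ̄` of algebraic numbers without complex multiplication, and let `M_0` be an ARBITRARY de
Rham-Betti object of rank `m` over `ℚ̄`, for example the realisation of any motive, pure or mixed, given by its period matrix
`C₀` (any invertible complex matrix; rows: Betti side, columns: de Rham side). No relation between the periods of `M_0` and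
those of the curves is assumed or excluded.

For a finite family `c ↦ E_{e(c)}` (`c ∈ C`) of these curves let

  `M_1 = ⨁_c [ℤ^(R c) → E_{e(c)}] ⊕ [ℤ^J → 𝔾ₘ]`

be the sum of the 1-motives given by points `P_{c,r}` of `E_{e(c)}(ℚ̄)`, linearly independent over `ℤ`, and by
multiplicatively independent algebraic numbers `α_j`. For `R c = J = ∅` this is the sum of the `h_1(E_{e(c)})` and of `ℚ(1)`,
a pure motive.

A `ℚ̄`-subtorsor `T` is a set of invertible matrices, closed under `x y⁻¹ z` and defined by polynomials over `ℚ̄`. The de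
Rham-Betti torsor `Ω^dRB_M` of `M = M_0 ⊕ M_1` is such a torsor, contains the period matrix of `M`, and its group is defined
over `ℚ`; the same holds for `Ω^And_M` and `Ω^mot_M`.

**Theorem.** There is a set `E` of at most `m/2` of the curves, which depends only on `M_0`, such that for every finite family
of curves which are not in `E`, every `ℚ̄`-subtorsor `T` which contains the period matrix of `M_0 ⊕ M_1` and whose group is
defined over `ℚ` is stable under the group of the matrices `1 ⊕ block X Y 1 0` with `det X_c = 1` and arbitrary `Y`.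

Consequences. The matrices `1 ⊕ block X Y 1 0` with `det X_c = 1` form the kernel of the map from the motivic Galois group of
`M_1` to that of `[ℤ^J → 𝔾ₘ]`. So for `J = ∅` and curves outside `E`: `Ω^dRB_M` is the fibre product of `Ω^dRB` of
`M_0 ⊕ ℚ(1)` and of the motivic torsor of `M_1` over `𝔾ₘ`; the motivic torsors are contained in such fibre products. Hence
`Ω^dRB_M = Ω^And_M` for `M = M_0 ⊕ M_1` if (and only if) this is so for `M_0 ⊕ ℚ(1)`. In particular if `Ω^dRB = Ω^And` holds
for a motive `M_0 ⊕ ℚ(1)` of rank `m + 1` then it holds for the sum of this motive and of the 1-motives of any number of curves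
without complex multiplication outside at most `m/2` isogeny classes.

The bound `m/2` is optimal: for `M_0 = ⨁ h_1(E_i)`, the sum over `m/2` curves, all these curves must be in `E`.

The earlier result `Pool/Graph/R_pool_sql_team_seeded_64922ed1/Results/MP_f11a48_ag/EllipticOverArbitraryMotive.lean` has the
conclusion for the curves `E_c` for which the Lie algebra object `sl(h_1(E_c))` is not a quotient of a Lie subalgebra object of
`End(M_0)`, and shows that this holds for all curves if `M_0` is an iterated extension of objects of rank one. New here: this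
hypothesis holds for all but `m/2` isogeny classes, for every `M_0`.

Proof. Let `C` be a finite set of exceptional curves, so for `c ∈ C` there is a Lie subalgebra object of `End(M_0)` with a
homomorphism onto `sl(h_1(E_c))`; let `Γ_c` be its graph. Let `N` be the set of the pairs `(z, x)`, `z ∈ End(M_0)`,
`x ∈ ∏_c End(h_1(E_c))`, such that `(z, x_c)` normalises `Γ_c` for all `c`. This is a Lie subalgebra object, and it contains
the logarithmic derivatives of the period matrix of `M_0 ⊕ ⨁_c h_1(E_c)`: on the pairs in `Γ_c` with algebraic coordinates on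
the de Rham side, the commutator with the logarithmic derivative `δ(P) P⁻¹` is `δ`, and `Γ_c` is closed under the `ℚ`-linear
map `δ` (file `S/Glue.lean`). Therefore, by the transcendence theorems of Schneider-Lang, Baker, Masser (all proved in
Lean in `Pool/Graph`) and Goursat's lemma the projection of `N` to `∏_c sl₂` is onto. If `(0, x) ∈ N` then `x_c` commutes
with `sl₂` and so it is scalar. It remains to see (`S/Cap.lean`): if a Lie algebra `N` acts on a vector space `V` of
dimension `m`, has a homomorphism onto `∏_{c ∈ C} sl₂`, and no nonzero element of `∏ sl₂` is the image of an element which acts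
trivially, then `2 |C| ≤ m`. Let `H` be a Cartan subalgebra, `±α_c` its roots which belong to the quotients, and
`E_c`, `F_c` elements of the root spaces which map to the standard generators. As `E_c` acts nontrivially on `V`, for each `c`
there is a weight `χ` of `H` in `V` such that `χ + α_c` is also a weight; from the generalised weight spaces in the `α_c`
string one finds a weight with `χ([E_c, F_c]) ≠ 0`; subtracting multiples of roots one finds for each `c` weights with sign
patterns which are different on `c`, and the number of the weights is at least `2 |C|` (`S/Comb.lean`, `S/Wt.lean`,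
`S/Cap0.lean`).
-/

set_option autoImplicit false

open scoped PeriodPair
open Matrix

noncomputable section

namespace Pool.Agent.Results.MP_5d33ca_ag.EllipticCurvesOverAnyMotive

/-- The Weierstrass zeta function `ζ(z) = ∑ (1/(z-l) + 1/l + z/l²)`, the sum over the lattice (the summand of `l = 0` is
`1/z`, since `1/0 = 0` in Lean). -/
def ζ (L : PeriodPair) (z : ℂ) : ℂ := ∑' l : L.lattice, (1 / (z - l) + 1 / l + z / l ^ 2)

/-- The quasi-period `η(w) = ζ(z + w) - ζ(z)` of `w ∈ Λ` (for `z = ω₁ / 2`, which is not in the lattice). -/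
def η (L : PeriodPair) (w : ℂ) : ℂ := ζ L (L.ω₁ / 2 + w) - ζ L (L.ω₁ / 2)

/-- The rows (Betti side) and columns (de Rham side) of the period matrix of `M_1`: for each curve `c` two cycles and the
paths from `0` to the points `P_{c,r}`; the circle, and the paths from `1` to `α_j`. -/
abbrev Idx (C : Type) (R : C → Type) (J : Type) : Type := (Σ c : C, Fin 2 ⊕ R c) ⊕ (Unit ⊕ J)

section
variable {C : Type} [Fintype C] [DecidableEq C] {R : C → Type} [∀ c, Fintype (R c)] [∀ c, DecidableEq (R c)]
  {J : Type} [Fintype J] [DecidableEq J]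

/-- The block diagonal matrix with the blocks `(X_c, 0; Y_c, 1)` for `c ∈ C` and `(μ, 0; v, 1)`. -/
def block (X : C → Matrix (Fin 2) (Fin 2) ℂ) (Y : (c : C) → Matrix (R c) (Fin 2) ℂ) (μ : ℂ) (v : J → ℂ) :
    Matrix (Idx C R J) (Idx C R J) ℂ :=
  fromBlocks (blockDiagonal' fun c => fromBlocks (X c) 0 (Y c) 1) 0 0
    (fromBlocks (Matrix.of fun _ _ => μ) 0 (Matrix.of fun j _ => v j) 1)

/-- The period matrix `(ω₁, η₁; ω₂, η₂)` of an elliptic curve. -/
def ellipticPeriods (L : PeriodPair) : Matrix (Fin 2) (Fin 2) ℂ := !![L.ω₁, η L L.ω₁; L.ω₂, η L L.ω₂]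

/-- The period matrix of `M_1`. -/
def periodMatrix (L : C → PeriodPair) (u : (c : C) → R c → ℂ) (l : J → ℂ) : Matrix (Idx C R J) (Idx C R J) ℂ :=
  block (fun c => ellipticPeriods (L c)) (fun c => Matrix.of fun r => ![u c r, ζ (L c) (u c r)])
    (2 * Real.pi * Complex.I) l

end

/-- `T` is the set of the complex points of a nonempty subtorsor over the algebraic numbers: a set of invertible
matrices, closed under `x y⁻¹ z`, defined by polynomials with algebraic coefficients. -/
def IsTorsor {B : Type} [Fintype B] [DecidableEq B] (T : Set (Matrix B B ℂ)) : Prop :=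
  (∀ x ∈ T, ∀ y ∈ T, ∀ z ∈ T, x * y⁻¹ * z ∈ T) ∧
  ∃ I : Set (MvPolynomial (B × B) ℂ), (∀ p ∈ I, ∀ m, IsAlgebraic ℚ (p.coeff m)) ∧
    ∀ x : Matrix B B ℂ, x ∈ T ↔ IsUnit x ∧ ∀ p ∈ I, MvPolynomial.eval (fun b => x b.1 b.2) p = 0

/-- The group of the matrices `x y⁻¹`, `x, y ∈ T`, is defined by polynomials with rational coefficients. -/
def GroupOverQ {B : Type} [Fintype B] [DecidableEq B] (T : Set (Matrix B B ℂ)) : Prop :=
  ∃ I : Set (MvPolynomial (B × B) ℂ), (∀ p ∈ I, ∀ m, ∃ q : ℚ, p.coeff m = q) ∧
    ∀ g : Matrix B B ℂ, (∃ x ∈ T, ∃ y ∈ T, g = x * y⁻¹) ↔ IsUnit g ∧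
      ∀ p ∈ I, MvPolynomial.eval (fun b => g b.1 b.2) p = 0

/-- **Almost all elliptic curves are independent of an arbitrary motive.** `C₀` is any invertible matrix, `L i` is any
family of lattices with algebraic invariants, without complex multiplication and pairwise non-isogenous. There is a set `E` of
at most `m/2` of them such that for all finite families `L (e c)` of the others, all elliptic logarithms `u c r` of algebraic
points which are linearly independent over `ℤ` and all logarithms `l j` of multiplicatively independent algebraic numbers,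
the torsors `T` of the text above contain with `x` all matrices `(1 ⊕ block X Y 1 0) x` with `det X_c = 1`. -/
theorem result {m : ℕ} (C₀ : Matrix (Fin m) (Fin m) ℂ) (h₀ : IsUnit C₀) {ι : Type} (L : ι → PeriodPair)
    (hg : ∀ i, IsAlgebraic ℚ (L i).g₂ ∧ IsAlgebraic ℚ (L i).g₃)
    (hCM : ∀ i, ∀ α : ℂ, (∀ w ∈ (L i).lattice, α * w ∈ (L i).lattice) → ∃ n : ℤ, α = n)
    (hiso : ∀ i i', i ≠ i' → ∀ α : ℂ, (∀ w ∈ (L i).lattice, α * w ∈ (L i').lattice) → α = 0) :
    ∃ E : Finset ι, 2 * E.card ≤ m ∧
      ∀ (C : Type) [Fintype C] [DecidableEq C] (e : C → ι), Function.Injective e → (∀ c, e c ∉ E) →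
      ∀ (R : C → Type) [∀ c, Fintype (R c)] [∀ c, DecidableEq (R c)] (J : Type) [Fintype J] [DecidableEq J]
        (u : (c : C) → R c → ℂ) (l : J → ℂ),
        (∀ c r, u c r ∉ (L (e c)).lattice ∧ IsAlgebraic ℚ (℘[L (e c)] (u c r))) →
        (∀ c, ∀ n : R c → ℤ, ∑ r, (n r : ℂ) * u c r ∈ (L (e c)).lattice → n = 0) →
        (∀ j, IsAlgebraic ℚ (Complex.exp (l j))) →
        (∀ n : J → ℤ, Complex.exp (∑ j, (n j : ℂ) * l j) = 1 → n = 0) →
        ∀ T : Set (Matrix (Fin m ⊕ Idx C R J) (Fin m ⊕ Idx C R J) ℂ), IsTorsor T → GroupOverQ T →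
        fromBlocks C₀ 0 0 (periodMatrix (fun c => L (e c)) u l) ∈ T →
        ∀ (X : C → Matrix (Fin 2) (Fin 2) ℂ) (Y : (c : C) → Matrix (R c) (Fin 2) ℂ), (∀ c, (X c).det = 1) →
        ∀ x ∈ T, fromBlocks 1 0 0 (block X Y 1 0) * x ∈ T := by
  classical
  let P' : ι → Matrix (Fin 2) (Fin 2) ℂ := fun i => (Pool.Agent.X306.EM.pers L (fun c (r : Empty) => r.elim)
    (fun j : Empty => j.elim) : Pool.Agent.TH119.MX.Per ι (fun _ => Empty) Empty).P' i
  have hPP' : ∀ i, ellipticPeriods (L i) * P' i = 1 := fun i =>
    (Pool.Agent.X306.EM.pers L (fun c (r : Empty) => r.elim)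
      (fun j : Empty => j.elim) : Pool.Agent.TH119.MX.Per ι (fun _ => Empty) Empty).PP' i
  let S : Set ι := {i | ∃ Γ, Pool.Agent.X306.RL.Cpl Pool.Agent.X306.EM.QQ Pool.Agent.W245.EB.QB C₀
    (ellipticPeriods (L i)) (P' i) Γ}
  have hcard : ∀ F : Finset ι, (F : Set ι) ⊆ S → 2 * F.card ≤ m := by
    intro F hF
    have h1 : ∀ c : F, ∃ Γ, Pool.Agent.X306.RL.Cpl Pool.Agent.X306.EM.QQ Pool.Agent.W245.EB.QB C₀
        (ellipticPeriods (L c)) (P' c) Γ := fun c => hF c.2
    choose Γ hΓ using h1
    have h2 := Pool.Agent.KS6_11.S.card_cpl (C := F) (L := fun c => L c) (fun c => (hg c).1) (fun c => (hg c).2)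
      (fun c => hCM c) (fun c c' hcc => hiso c c' fun h => hcc (Subtype.ext h)) h₀ (fun c => P' c)
      (fun c => hPP' c) Γ hΓ
    rwa [Fintype.card_coe, Fintype.card_fin] at h2
  have hfin : S.Finite := by
    by_contra hcon
    obtain ⟨F, hF1, hF2⟩ := Set.Infinite.exists_subset_card_eq hcon (m + 1)
    have h1 := hcard F hF1
    omega
  refine ⟨hfin.toFinset, hcard _ (fun i hi => by simpa using hi), ?_⟩
  intro C _ _ e he hE R _ _ J _ _ u l hu hui hl hli T hT hG hc X Y hX x hx
  have hT' : Pool.Agent.TH127.PT.IsSubtorsor Pool.Agent.W245.EB.QB T := by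
    obtain ⟨h1, I, h2, h3⟩ := hT
    exact ⟨fun x hx => ((h3 x).1 hx).1, h1, I, fun p hp m => Pool.Agent.W245.EB.mem_QB.2 (h2 p hp m), h3⟩
  set D := Pool.Agent.X306.EM.pers (fun c => L (e c)) u l with hD
  have hpm : periodMatrix (fun c => L (e c)) u l = Pool.Agent.TH119.MX.pm D := by
    unfold periodMatrix block Pool.Agent.TH119.MX.pm Pool.Agent.TH119.MX.bm
    simp only [one_smul]
    congr 1
  have hF : Pool.Agent.TH119.DR.DefOver Pool.Agent.X306.EM.QQ (Pool.Agent.Y123.ST.LL T) := by
    obtain ⟨I, hI1, hI2⟩ := hG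
    refine Pool.Agent.X306.RL.LL_defF hT' ⟨I, fun p hp m => ?_, hI2⟩ hc
    obtain ⟨q, hq⟩ := hI1 p hp m
    exact Pool.Agent.X306.EM.mem_QQ.2 ⟨q, hq.symm⟩
  have hc' : Pool.Agent.X306.RL.cm D C₀ ∈ T := by
    rw [hpm] at hc
    exact hc
  have hmem := Pool.Agent.X306.RL.rel_main (fun c => (hg (e c)).1) (fun c => (hg (e c)).2) (fun c => hCM (e c))
    (fun c c' hcc => hiso (e c) (e c') fun h => hcc (he h)) hu hui hl hli h₀ hT'
    Pool.Agent.X306.EM.QQ_le hF (Or.inl rfl) hc' (fun c Γ hΓ => hE c ((Set.Finite.mem_toFinset hfin).2 ⟨Γ, hΓ⟩)) hX Y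
  have h1 := hmem x hx
  refine (congrArg (fun g => fromBlocks 1 0 0 g * x ∈ T) ?_).mp h1
  unfold block Pool.Agent.TH119.MX.bm
  simp only [one_smul]

end Pool.Agent.Results.MP_5d33ca_ag.EllipticCurvesOverAnyMotive
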