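import Pool.Agent.KS6_11.E.Main

/-!
# Iterated integrals on almost all elliptic curves are independent of an arbitrary motive

Let `E_i = ℂ / Λ_i` (`i ∈ ι`, any index set, for example representatives of ALL isogeny classes) be pairwise non-isogenous
elliptic curves over the field `ℚ̄` of algebraic numbers without complex multiplication, and let `M_0` be an ARBITRARY de
Rham-Betti object of rank `m` over `ℚ̄`, for example the realisation of any motive, pure or mixed, given by its period matrix
`C₀` (any invertible complex matrix; rows: Betti side, columns: de Rham side). No relation between the periods of `M_0` and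
those of the curves is assumed or excluded.

For a finite family `c ↦ E_{i(c)}` (`c ∈ C`) of these curves let `M_c` be the motive of the fundamental group
`π₁(E_{i(c)} ∖ 0, v)`, where `v` is a tangential base point at the origin, modulo a power of the augmentation ideal, or a
quotient of it (such as the elliptic polylogarithm quotients), and for points `p_{c,r} ∈ E_{i(c)}(ℚ̄)`, linearly independent
over `ℤ` for each `c`, let `M_{c,r}` be the motive of the paths from `v` to `p_{c,r}`, which has the iterated integrals (of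
all lengths) of the forms `dz` and `℘(z) dz` as its periods. (A base point of order two is also possible.)

The period matrix of `M_0 ⊕ ⨁_c (M_c ⊕ ⨁_r M_{c,r})` has the following shape: `C₀ ⊕ ⨁_c (P_c ⊕ ⨁_r P_c F_{c,r})`. The
elements `b : B c` of the basis of `M_c` have the degrees `d b`, such that the power `I^k` of the augmentation ideal
corresponds to `d b ≥ k`, and `o` is the unit.

* `P_c` is the period matrix of `M_c`. It is triangular with respect to the degrees. Let `N_0`, `N_1` be the (right)
  multiplication with the dual basis of `dz`, `-℘(z) dz = d ζ(z)` in `H_1`. So the unipotent connection is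
  `d + N_0 dz + N_1 dζ`, and `M_c` is generated by the unit as a module over `N_0`, `N_1`. The local system is defined over
  `ℚ`: the matrices `P_c T_γ P_c⁻¹` of the monodromy along the loops `γ` have rational entries. We use this only for two
  loops which represent the basis of `Λ`, and write `T_γ = L L'⁻¹` with the transports `L` and `L'` along two paths from the
  base point to the same point. The involution `-1` shows that the extensions between consecutive degrees in `M_c` split
  (`split`).
* The period matrix of `M_{c,r}` is `P_c F_{c,r}` with the transport `F_{c,r}` from the base point to `p_{c,r}`: the value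
  `F(1)` of the solution of `F' = F (N_0 z' + N_1 (ζ(z))')` along a path (`IsTransport`), where the (regularised) value
  `F(0)` at the beginning is `exp X`, `X` in the Lie algebra `𝔫` generated by `N_0` and `N_1` (`lieAlgebra`), or a limit of
  such matrices (`IsLimitTransport`). The integrals of length one are `u` and `ζ(u)`, where `u` is the elliptic logarithm of
  `p_{c,r}`.

**Theorem.** There is a set `E` of at most `m/2` of the curves, which depends only on `M_0`, such that for every finite family
of curves which are not in `E`, for all points and all objects as above: every `ℚ̄`-subtorsor `T` which contains the period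
matrix of `M_0 ⊕ ⨁_c (M_c ⊕ ⨁_r M_{c,r})` and whose group is defined over `ℚ` is stable under the unipotent group of all
matrices `1 ⊕ ⨁_c (1 ⊕ ⨁_r P_c exp(n_{c,r}) P_c⁻¹)`, `n_{c,r} ∈ 𝔫_c`.

The fibres of the motivic torsor of `M_0 ⊕ ⨁_c (M_c ⊕ ⨁_r M_{c,r})` over the motivic torsor of `M_0 ⊕ ⨁_c M_c` are contained
in the orbits of this group. So for the motivic torsor, the torsor of formal periods, the torsor of motivated classes and the
de Rham-Betti torsor the fibres over the torsor of `M_0 ⊕ ⨁_c M_c` are equal, as Grothendieck's conjecture predicts: on all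
elliptic curves without complex multiplication outside `m/2` isogeny classes, and for all points on them, there are no
relations over the periods of `M_0` and the `M_c` between the iterated integrals at independent points, of all lengths, other
than the shuffle relations, among the relations which define a subtorsor of this kind.

In the earlier result `IteratedIntegralsOverAnyMotive` (same folder; any abelian variety) there are exceptional points on
each curve, up to `m² / 8` for each curve, so infinitely many in total for infinitely many curves. New here: there are no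
exceptional points on all but `m/2` curves, and any number of curves is treated at the same time. The result
`EllipticCurvesOverAnyMotive` (same folder) is about the pure parts and 1-motives, that is, integrals of length one.

Proof. Let `Mn` be the smallest space of pairs `(z, x)`, with a component `z` for `M_0` and a component `x` for the 1-motives
`⨁_c [ℤ^(R c) → E_c]`, which is closed under commutators and `ℚ`-linear maps of the coordinates and contains the logarithmic
derivatives of the period matrix. It is automatically defined over `ℚ̄` on the de Rham side, since there it is stable under all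
derivations of `ℂ` (`Dst`, `Mn`). So the transcendence theorems of Schneider-Lang, Baker, Masser and Bertrand-Masser (proved in
Lean in `Pool/Graph`) show that all `x` occur (`Mn`). A curve is exceptional if `(0, x) ∈ Mn` only for scalar `x`, for this
curve alone; then its Lie algebra `sl₂` is a quotient of a Lie subalgebra object of `End(M_0)`, and the theorem on the number
of such curves (`Pool/Agent/KS6_11/S`) bounds their number by `m/2`. For the other curves all `(0, x)` with `x_c ∈ sl₂` belong
to `Mn` (`Full`). These elements lift to elements of the Lie algebra of the group of `T` without component for `M_0` (`Fam`).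
Iterated commutators of the elements with components in one curve `c` in degrees zero and one kill the components of higher
degree in the blocks of the other curves, as `sl₂` and its semidirect product with `H_1` are perfect (`Conc`). Then
commutators with an element which acts on `H_1` as a scalar give elements which are concentrated in one block `M_{c,r}`
(`Pool/Agent/KS6_11/G/Raise`, `Main`), and these generate the Lie algebra.
-/

set_option autoImplicit false
set_option synthInstance.maxSize 1000

open scoped PeriodPair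
open Matrix

noncomputable section

namespace Pool.Agent.Results.MP_5d33ca_ag.EllipticPolylogsOverAnyMotive

/-- The Weierstrass zeta function `ζ(z) = ∑ (1/(z-l) + 1/l + z/l²)`, the sum over the lattice (the summand of `l = 0` is
`1/z`, since `1/0 = 0` in Lean). -/
def ζ (L : PeriodPair) (z : ℂ) : ℂ := ∑' l : L.lattice, (1 / (z - l) + 1 / l + z / l ^ 2)

/-- The quasi-period `η(w) = ζ(z + w) - ζ(z)` of `w ∈ Λ` (for `z = ω₁ / 2`, which is not in the lattice). -/
def η (L : PeriodPair) (w : ℂ) : ℂ := ζ L (L.ω₁ / 2 + w) - ζ L (L.ω₁ / 2)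

/-- The period matrix `(ω₁, η₁; ω₂, η₂)` of an elliptic curve. -/
def ellipticPeriods (L : PeriodPair) : Matrix (Fin 2) (Fin 2) ℂ := !![L.ω₁, η L L.ω₁; L.ω₂, η L L.ω₂]

/-- `T` is a subtorsor over the field of algebraic numbers: it is the set of the invertible zeros of a set of
polynomials with algebraic coefficients, and closed under `x y⁻¹ z`. -/
structure IsTorsor {N : Type} [Fintype N] [DecidableEq N] (T : Set (Matrix N N ℂ)) : Prop where
  algebraic : ∃ I : Set (MvPolynomial (N × N) ℂ), (∀ p ∈ I, ∀ e, IsAlgebraic ℚ (p.coeff e)) ∧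
    ∀ x : Matrix N N ℂ, x ∈ T ↔ IsUnit x ∧ ∀ p ∈ I, MvPolynomial.eval (fun b => x b.1 b.2) p = 0
  closed : ∀ x ∈ T, ∀ y ∈ T, ∀ z ∈ T, x * y⁻¹ * z ∈ T

/-- The group of the matrices `x y⁻¹`, `x, y ∈ T`, is defined by polynomials with rational coefficients. -/
def GroupOverQ {N : Type} [Fintype N] [DecidableEq N] (T : Set (Matrix N N ℂ)) : Prop :=
  ∃ I : Set (MvPolynomial (N × N) ℂ), (∀ p ∈ I, ∀ e, ∃ q : ℚ, p.coeff e = q) ∧
    ∀ h : Matrix N N ℂ, (∃ x ∈ T, ∃ y ∈ T, h = x * y⁻¹) ↔ IsUnit h ∧
      ∀ p ∈ I, MvPolynomial.eval (fun b => h b.1 b.2) p = 0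

section

variable {B : Type} [Fintype B] [DecidableEq B]

/-- The Lie algebra generated by the matrices `N_s`: the smallest subspace which contains them and the commutators of its
elements. -/
def lieAlgebra (N : Fin 2 → Matrix B B ℂ) : Submodule ℂ (Matrix B B ℂ) :=
  sInf {U | (∀ s, N s ∈ U) ∧ ∀ x ∈ U, ∀ y ∈ U, x * y - y * x ∈ U}

/-- The exponential `∑ X ^ k / k!` for matrices `X` which raise the degree; the terms with `k > max d` vanish for them. -/
def nilExp (d : B → ℕ) (X : Matrix B B ℂ) : Matrix B B ℂ :=
  ∑ k ∈ Finset.range (Finset.univ.sup d + 1), ((k.factorial : ℂ))⁻¹ • X ^ k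

/-- `F₁` is the transport `F(1)` and `l_s` are the integrals `f_s(1)`: `F' = F ∑ c_s N_s` and `f_s' = c_s` on `[0, 1]`; the
initial value is `F(0) = exp X` with an element `X` of the Lie algebra whose component of degree one is `∑ f_s(0) N_s`. -/
def IsTransport (d : B → ℕ) (N : Fin 2 → Matrix B B ℂ) (l : Fin 2 → ℂ) (F₁ : Matrix B B ℂ) : Prop :=
  ∃ (c f : Fin 2 → ℝ → ℂ) (F : ℝ → Matrix B B ℂ) (X : Matrix B B ℂ),
    (∀ s, ∀ t ∈ Set.Icc (0 : ℝ) 1, HasDerivWithinAt (f s) (c s t) (Set.Icc 0 1) t) ∧
    (∀ t ∈ Set.Icc (0 : ℝ) 1, ∀ b b',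
      HasDerivWithinAt (fun t => F t b b') ((F t * ∑ s, c s t • N s) b b') (Set.Icc 0 1) t) ∧
    X ∈ lieAlgebra N ∧ (∀ b b', d b' ≤ d b + 1 → X b b' = ∑ s, f s 0 * N s b b') ∧ F 0 = nilExp d X ∧
    (∀ s, l s = f s 1) ∧ F₁ = F 1

/-- `F₁` and `l` are limits of transports (for example, of a constant sequence). -/
def IsLimitTransport (d : B → ℕ) (N : Fin 2 → Matrix B B ℂ) (l : Fin 2 → ℂ) (F₁ : Matrix B B ℂ) : Prop :=
  ∃ (lj : ℕ → Fin 2 → ℂ) (Fj : ℕ → Matrix B B ℂ), (∀ j, IsTransport d N (lj j) (Fj j)) ∧
    (∀ s, Filter.Tendsto (fun j => lj j s) Filter.atTop (nhds (l s))) ∧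
    ∀ b b', Filter.Tendsto (fun j => Fj j b b') Filter.atTop (nhds (F₁ b b'))

/-- The properties of the period matrix `P` of the motive `M_c`, with the operation `N_s` of the basis of `H_1`. -/
structure IsUnipotent (L : PeriodPair) (d : B → ℕ) (o : B) (N : Fin 2 → Matrix B B ℂ) (P : Matrix B B ℂ) : Prop where
  invertible : IsUnit P
  /-- the filtration by the powers of the augmentation ideal -/
  lower : ∀ b b', d b' < d b → P b b' = 0
  /-- the extensions between consecutive degrees split -/
  split : ∀ b b', d b' = d b + 1 → P b b' = 0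
  /-- the unit `o` is the only element of the basis of degree `0` -/
  unit : d o = 0 ∧ P o o = 1 ∧ ∀ b, d b = 0 → b = o
  alg : ∀ s b b', IsAlgebraic ℚ (N s b b')
  /-- `N_s` raises the degree by one -/
  deg : ∀ s b b', d b' ≠ d b + 1 → N s b b' = 0
  /-- the module is generated by the unit -/
  cyclic : ∀ b, b ≠ o → (Pi.single b 1 : B → ℂ) ∈ Submodule.span ℂ {v | ∃ (w : B → ℂ) (s : Fin 2), v = w ᵥ* N s}
  /-- There are loops, given by two paths with transports `L` and `L'` from the base point to the same point, which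
  represent the basis of the lattice, and the monodromy `P L L'⁻¹ P⁻¹` in the Betti basis is rational. -/
  loops : ∀ k, ∃ (l l' : Fin 2 → ℂ) (F F' : Matrix B B ℂ), IsLimitTransport d N l F ∧ IsLimitTransport d N l' F' ∧
    (∀ s, l s - l' s = ellipticPeriods L k s) ∧ ∀ b b', ∃ q : ℚ, (P * F * F'⁻¹ * P⁻¹) b b' = q

open Pool.Agent.X306.MT in
/-- limits of transports are exponentials of elements of the Lie algebra -/
theorem exp_of_limit {d : B → ℕ} {N : Fin 2 → Matrix B B ℂ} (hD1 : Deg1 d N) {l : Fin 2 → ℂ}
    {L : Matrix B B ℂ} (hL : IsLimitTransport d N l L) : ∃ ell ∈ nn N, L = ex d ell ∧ ell - ∑ s, l s • N s ∈ Ge d 2 := by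
  have hlie : lieAlgebra N = nn N := lieGen_eq
  obtain ⟨lj, Lj, h1, h2, h3⟩ := hL
  have h4 : ∀ j, ∃ Z ∈ nn N, Lj j = ex d Z ∧ Z - ∑ s, lj j s • N s ∈ Ge d 2 := by
    intro j
    obtain ⟨c, f, F, X, h5, h6, h7, h8, h9, h10, h11⟩ := h1 j
    obtain ⟨ell, h12, h13, h14⟩ := sol_exp (d := d) (N := N) hD1 (F := F) (c := c) (f := f)
      (ℓ₀ := X) (hlie ▸ h7) (by
        intro b b' hb
        rw [Matrix.sub_apply, h8 b b' (by omega), Matrix.sum_apply, sub_eq_zero]
        exact Finset.sum_congr rfl fun s _ => rfl) h5 h6 h9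
    refine ⟨ell, h12, by rw [h11, h13], ?_⟩
    simp only [h10]
    exact h14
  choose Z hZ1 hZ2 hZ3 using h4
  exact exp_closed (d := d) (N := N) hD1 hZ1 (L := L) (by
    intro b b'
    simp only [← hZ2]
    exact h3 b b') h2 hZ3

open Pool.Agent.X306.MT Pool.Agent.X306.CV in
/-- the structure used in the proof -/
theorem exists_fn {L : PeriodPair} {d : B → ℕ} {o : B} {N : Fin 2 → Matrix B B ℂ} {P : Matrix B B ℂ}
    (hC : IsUnipotent L d o N P) {Q : Matrix (Fin 2) (Fin 2) ℂ} (hQ : Q * ellipticPeriods L = 1)
    (hQ' : ellipticPeriods L * Q = 1) : ∃ NB, Pool.Agent.KS6_11.G.Fn d o N NB P (ellipticPeriods L) Q := by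
  have hD1 : Deg1 d N := hC.deg
  have low : P ∈ Ge d 0 := fun b b' h => hC.lower b b' (by omega)
  have hbi : Bi d P := Bi.of_low hC.invertible low
  have ht : ∀ k, ∃ t ∈ nn N, t - ∑ i, ellipticPeriods L k i • N i ∈ Ge d 2 ∧
      Pool.Agent.X306.MZ.InK Pool.Agent.X306.EM.QQ (P * t * P⁻¹) := by
    intro k
    obtain ⟨l₁, l₂, L₁, L₂, e1, e2, e3, e4⟩ := hC.loops k
    obtain ⟨X, e5, e6, e7⟩ := exp_of_limit hD1 e1
    obtain ⟨Y, e8, e9, e10⟩ := exp_of_limit hD1 e2
    obtain ⟨t, e11, e12, e13⟩ := Pool.Agent.KS6_11.loop_log hD1 e5 e8 e7 e10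
    refine ⟨t, e11, ?_, Pool.Agent.KS6_11.log_mem hbi (nn_Ge hD1 e11) fun b b' => ?_⟩
    · simp only [e3] at e13
      exact e13
    · rw [← e12, ← e6, ← e9]
      obtain ⟨q, hq⟩ := e4 b b'
      rw [← Matrix.mul_assoc, hq]
      exact Pool.Agent.X306.EM.mem_QQ.2 ⟨q, rfl⟩
  choose t ht1 ht2 ht3 using ht
  have hLp : Pool.Agent.KS6_11.G.Lp d N P (ellipticPeriods L) t := ⟨hbi, hD1, ht1, ht2, ht3⟩
  exact ⟨_, hLp.fn (o := o) hQ hQ' hC.invertible low hC.unit.1 hC.unit.2.2 hC.unit.2.1 hC.alg hC.cyclic⟩

end

open Pool.Agent.X306.MT Pool.Agent.X306.CV in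
/-- **Iterated integrals on almost all elliptic curves are independent of an arbitrary motive.** `C₀` is any invertible
matrix, `L i` is any family of lattices with algebraic invariants, without complex multiplication and pairwise non-isogenous.
There is a set `E` of at most `m/2` of them such that for all finite families `L (i c)` of the others, all elliptic
logarithms `u c r` of algebraic points which are linearly independent over `ℤ` for each `c`, all unipotent objects with period
matrices `P c` over these curves, and all transports `F c r` to the points: the torsors `T` of the text above contain with `x`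
all matrices `(1 ⊕ ⨁_c (1 ⊕ ⨁_r P_c exp(n_{c,r}) P_c⁻¹)) x` with `n_{c,r}` in the Lie algebras generated by `N_0`, `N_1`. -/
theorem result {m : ℕ} (C₀ : Matrix (Fin m) (Fin m) ℂ) (h₀ : IsUnit C₀) {ι : Type} (L : ι → PeriodPair)
    (hg : ∀ i, IsAlgebraic ℚ (L i).g₂ ∧ IsAlgebraic ℚ (L i).g₃)
    (hCM : ∀ i, ∀ α : ℂ, (∀ w ∈ (L i).lattice, α * w ∈ (L i).lattice) → ∃ n : ℤ, α = n)
    (hiso : ∀ i i', i ≠ i' → ∀ α : ℂ, (∀ w ∈ (L i).lattice, α * w ∈ (L i').lattice) → α = 0) :
    ∃ E : Finset ι, 2 * E.card ≤ m ∧
      ∀ (C : Type) [Fintype C] [DecidableEq C] (i : C → ι), Function.Injective i → (∀ c, i c ∉ E) →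
      ∀ (R : C → Type) [∀ c, Fintype (R c)] [∀ c, DecidableEq (R c)] (u : (c : C) → R c → ℂ),
        (∀ c r, u c r ∉ (L (i c)).lattice ∧ IsAlgebraic ℚ (℘[L (i c)] (u c r))) →
        (∀ c, ∀ n : R c → ℤ, ∑ r, (n r : ℂ) * u c r ∈ (L (i c)).lattice → n = 0) →
      ∀ (B : C → Type) [∀ c, Fintype (B c)] [∀ c, DecidableEq (B c)] (d : (c : C) → B c → ℕ) (o : (c : C) → B c)
        (N : (c : C) → Fin 2 → Matrix (B c) (B c) ℂ) (P : (c : C) → Matrix (B c) (B c) ℂ),
        (∀ c, IsUnipotent (L (i c)) (d c) (o c) (N c) (P c)) →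
      ∀ F : (c : C) → R c → Matrix (B c) (B c) ℂ,
        (∀ c r, IsLimitTransport (d c) (N c) ![u c r, ζ (L (i c)) (u c r)] (F c r)) →
      ∀ T : Set (Matrix (Fin m ⊕ (Σ c, B c ⊕ (B c × R c))) (Fin m ⊕ (Σ c, B c ⊕ (B c × R c))) ℂ),
        IsTorsor T → GroupOverQ T →
        fromBlocks C₀ 0 0 (blockDiagonal' fun c => fromBlocks (P c) 0 0 (blockDiagonal fun r => P c * F c r)) ∈ T →
      ∀ n : (c : C) → R c → Matrix (B c) (B c) ℂ, (∀ c r, n c r ∈ lieAlgebra (N c)) → ∀ x ∈ T,
        fromBlocks 1 0 0 (blockDiagonal' fun c => fromBlocks 1 0 0 (blockDiagonal fun r =>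
          P c * nilExp (d c) (n c r) * (P c)⁻¹)) * x ∈ T := by
  classical
  obtain ⟨E, hE1, hE2⟩ := Pool.Agent.KS6_11.E.exc_fin L hg hCM hiso h₀
  rw [Fintype.card_fin] at hE1
  refine ⟨E, hE1, ?_⟩
  intro C _ _ i hi hiE R _ _ u hu hui B _ _ d o N P hC F hF T hT hG hP n hn x hx
  have hT' : Pool.Agent.TH127.PT.IsSubtorsor Pool.Agent.W245.EB.QB T := by
    obtain ⟨I, h1, h2⟩ := hT.algebraic
    exact ⟨fun x hx => ((h2 x).1 hx).1, hT.closed, I,
      fun p hp e => (Pool.Agent.X306.EM.QB_iff _).1 (h1 p hp e), h2⟩
  have hG' : Pool.Agent.X306.RL.GDef Pool.Agent.X306.EM.QQ T := by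
    obtain ⟨I, hI1, hI2⟩ := hG
    exact ⟨I, fun p hp m => by
      obtain ⟨q, hq⟩ := hI1 p hp m
      exact Pool.Agent.X306.EM.mem_QQ.2 ⟨q, hq.symm⟩, hI2⟩
  let l : Empty → ℂ := fun j => j.elim
  obtain ⟨D, hD⟩ : ∃ D, D = Pool.Agent.X306.EM.pers (fun c => L (i c)) u l := ⟨_, rfl⟩
  have hDP : ∀ c, D.P c = ellipticPeriods (L (i c)) := fun c => by rw [hD]; rfl
  have hDU : ∀ c r, D.U c r = ![u c r, ζ (L (i c)) (u c r)] := fun c r => by rw [hD]; rfl
  have hlie : ∀ c, lieAlgebra (N c) = nn (N c) := fun c => lieGen_eq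
  have hfn : ∀ c, ∃ NB, Pool.Agent.KS6_11.G.Fn (d c) (o c) (N c) NB (P c) (D.P c) (D.P' c) := by
    intro c
    have h1 : D.P' c * ellipticPeriods (L (i c)) = 1 := by rw [← hDP]; exact D.P'P c
    have h2 : ellipticPeriods (L (i c)) * D.P' c = 1 := by rw [← hDP]; exact D.PP' c
    obtain ⟨NB, h⟩ := exists_fn (hC c) h1 h2
    refine ⟨NB, ?_⟩
    rw [hDP]
    exact h
  choose NB H using hfn
  have h1 : ∀ c r, ∃ ell ∈ nn (N c), F c r = ex (d c) ell ∧ ell - nbv (N c) (D.U c r) ∈ Ge (d c) 2 := by
    intro c r
    obtain ⟨ell, e1, e2, e3⟩ := exp_of_limit (hC c).deg (hF c r)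
    refine ⟨ell, e1, e2, ?_⟩
    rw [hDU]
    exact e3
  choose ell h2 h3 h4 using h1
  have hP' : Pool.Agent.KS6_11.E.pmf C₀ d P ell ∈ T := by
    unfold Pool.Agent.KS6_11.E.pmf
    simp only [← h3]
    exact hP
  have hg2 : ∀ c, IsAlgebraic ℚ (L (i c)).g₂ := fun c => (hg (i c)).1
  have hg3 : ∀ c, IsAlgebraic ℚ (L (i c)).g₃ := fun c => (hg (i c)).2
  refine Pool.Agent.KS6_11.E.mainE H hT' hG' h₀ (fun c => (hC c).split) h2 h4 hP' (fun x hx => ?_) (fun c => ?_)
    (fun c r => hlie c ▸ hn c r) hx
  · rw [hD]
    exact Pool.Agent.KS6_11.E.Sn_full hg2 hg3 (fun c => hCM (i c))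
      (fun c c' hcc => hiso (i c) (i c') fun h => hcc (hi h)) hu hui (fun j => j.elim)
      (fun n _ => funext fun j => j.elim) h₀ hx
  · rw [hD]
    exact Pool.Agent.KS6_11.E.ne_family (hE2 (i c) (hiE c))

end Pool.Agent.Results.MP_5d33ca_ag.EllipticPolylogsOverAnyMotive
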