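import Pool.Agent.KS6_11.G.Loop

/-!
# Iterated integrals on curves relative to an arbitrary motive

Let `X` be a smooth variety over the field `ℚ̄` of algebraic numbers whose first homology is the one of its Albanese variety
`A`, of dimension `g`: for example a smooth projective curve of genus `g ≥ 1`, with or without one point removed. Let `a` be
a base point over `ℚ̄` (or a tangential base point), and `M_a = ℚ[π₁(X, a)] / I^(n+1)` the motive given by the motivic
fundamental group, modulo a power of the augmentation ideal `I`, or a quotient of it, such as the (mixed elliptic)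
polylogarithm quotients. For a point `b ∈ X(ℚ̄)` let `M_b` be the corresponding motive for the paths from `a` to `b`, which
has the iterated integrals of length at most `n` on `X` as its periods. We take points `b_j`, `j : J`, where the set `J` can
be infinite. Let `M₀` be **any** motive over `ℚ̄`, of rank `m`, without hypotheses: it can be pure or mixed, with arbitrary
weights, it can have any relation to the abelian variety `A`, and it can contain the motives `M_{b_j}`.

The period matrix of `M₀ ⊕ M_a ⊕ ⨁_{j ∈ K} M_{b_j}`, for a finite subset `K` of `J`, has the following shape (rows: Betti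
side, columns: de Rham side): `C₀ ⊕ C ⊕ ⨁_{j ∈ K} C L_j`, with the period matrix `C₀` of `M₀`. The elements `b : B` of the
basis of `M_a` have the degrees `d b`, such that the power `I^k` corresponds to `d b ≥ k`, and `o` is the unit.

* `C` is the period matrix of `M_a`. It is triangular with respect to the degrees. Let `ω_i`, `i : Fin (2g)`, be the
  differential forms on `X` or on the punctured curve which correspond to the basis `d z_k`, `d (∂_k log θ₀)` of
  `H^1_dR(A)`, and let `N_i` be the (right) multiplication with the dual basis of `H_1`. So the unipotent connection is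
  `d + ∑ N_i ω_i`, and `M_a` is generated by the unit `o` as a module over the `N_i`. The local system is defined over `ℚ`:
  the matrices `C T_γ C⁻¹` of the monodromy along the loops `γ` have rational entries. We use this only for some loops
  `γ_k`, `k : Fin (2g)`, which represent the basis of `H_1(A, ℤ)`, and write `T_γ = L L'⁻¹` with the transports `L` and
  `L'` along two paths from the base point to the same point (`IsUnipotent`).
* The period matrix of `M_{b_j}` is `C L_j` with the transport `L_j` from `a` to `b_j`: the value `F(1)` of the solution of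
  `F' = F ∑ c_i N_i` along a path, where `c_i(t) dt` is the pull back of `ω_i` (`IsTransport`), with `F(0) = 1`, or, for a
  tangential base point, with `F(0) = exp X`, `X` in the Lie algebra `𝔫` generated by the `N_i` (`lieAlgebra`), or a limit of
  such matrices (`IsLimitTransport`). The entries of `L_j` are the iterated integrals. The integrals of length one are the
  coordinates of the abelian logarithm `u j` of the point `[b_j] - [a]` of `A`, and integrals `e j` of the second kind.
* One of the following holds: (`split`) the extensions between consecutive degrees in `M_a` split; this is the case for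
  hyperelliptic and elliptic curves, for a Weierstrass point `a` (or a tangential base point there), because of the
  hyperelliptic involution. Or (`summand`) `M_a / I³` is a direct summand of the motive `M₀`, and the Lie algebra `𝔫` acts
  faithfully on the unit in degree two. The second condition is no restriction for the base point and the variety, as
  `M₀` is arbitrary and can be replaced by `M₀ ⊕ M_a / I³`.

**Theorem.** Suppose that the points `[b_j] - [a]` of `A` are linearly independent over `End A`, and that the nonzero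
endomorphisms of `A` have rank at least `h` (as endomorphisms of `ℂ^g`; if `A` is simple, `h = g`). Then there is a set
`E ⊆ J` with at most `m² / (8 h)` elements, which depends only on `C₀`, `A` and the abelian logarithms, such that the
following holds for all finite subsets `K` of `J ∖ E` and for all `M_a` as above (for example, for the path torsors modulo
`I^n`, for all `n`): every subtorsor `T` over `ℚ̄`, with a group defined over `ℚ`, which contains the period matrix of
`M₀ ⊕ M_a ⊕ ⨁_{j ∈ K} M_{b_j}` is stable under the unipotent group of all `1 ⊕ 1 ⊕ ⨁_j C exp(n_j) C⁻¹`, `n_j ∈ 𝔫`.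

The fibres of the motivic torsor of `M₀ ⊕ M_a ⊕ ⨁ M_{b_j}` over the motivic torsor of `M₀ ⊕ M_a` are contained in the orbits
of this group. So for the motivic torsor, the torsor of formal periods, the torsor of motivated classes and the de
Rham-Betti torsor the fibres over the torsor of `M₀ ⊕ M_a` are equal, as Grothendieck's conjecture predicts: with at most
`m² / (8 h)` exceptions among the points `b_j`, there are no relations over the periods of `M₀` and `M_a` between the
iterated integrals at the points `b_j`, of all lengths, other than the shuffle relations, among the relations which define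
a subtorsor of this kind. The number of exceptions does not depend on the length of the integrals.

## The proof

For a finite set `K` of indices let `Λ_K` be the smallest space of triples `(z, X, y)` (components for `M₀`, `H_1(A)` and the
extensions of the points), which is closed under commutators and rational components and contains the logarithmic
derivatives of the periods. By the theorems of Schneider and Lang for `A` it contains triples `(z, 0, y)` for all `y`, and
a triple `(z, X, y)` such that the eigenvalues of `X` have the same real part `≠ 0`. This gives a bound for the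
codimension of the space `W` of the `y` with `(0, 0, y) ∈ Λ_K`: the `z` above can be chosen in the generalized eigenspaces
of the commutator with `z₁` for the eigenvalues with real part `-h₀ ≠ 0`, and these have dimension at most `m² / 4` in total
(`CapB`, `CapC`), as the commutator has trace `0` and a pairing of the eigenvalues. By semisimplicity of `End A` and the
positivity of the Riemann form, `W` has a complement of the form `⨁_{j ∈ E}`, and `E` has at most `m² / (8 h)` elements
(`CapC`). For `j ∉ E` we get elements of the Lie algebra of the group of `T` without component for `M₀`, of degree at least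
two for `M_a` (`Small`), and with arbitrary components of degree one for the `M_{b_j}`. Commutators with the element above
give elements which are concentrated in one block `M_{b_j}` (`Raise`), and these generate the Lie algebra (`Main`).
-/

set_option autoImplicit false

open Matrix Pool.Agent.Y102

noncomputable section

namespace Pool.Agent.Results.MP_5d33ca_ag.IteratedIntegralsOverAnyMotive

variable {B : Type} [Fintype B] [DecidableEq B]

/-- `T` is a subtorsor over the field of algebraic numbers: it is the set of the invertible zeros of a set of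
polynomials with algebraic coefficients, and closed under `x y⁻¹ z`. -/
structure IsTorsor {N : Type} [Fintype N] [DecidableEq N] (T : Set (Matrix N N ℂ)) : Prop where
  algebraic : ∃ I : Set (MvPolynomial (N × N) ℂ), (∀ p ∈ I, ∀ e, IsAlgebraic ℚ (p.coeff e)) ∧
    ∀ x : Matrix N N ℂ, x ∈ T ↔ IsUnit x ∧ ∀ p ∈ I, MvPolynomial.eval (fun b => x b.1 b.2) p = 0
  closed : ∀ x ∈ T, ∀ y ∈ T, ∀ z ∈ T, x * y⁻¹ * z ∈ T

/-- The group of the matrices `x y⁻¹`, `x, y ∈ T`, is defined by polynomials with rational coefficients. -/
def GroupOverQ {N : Type} [Fintype N] [DecidableEq N] (T : Set (Matrix N N ℂ)) : Prop :=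
  ∃ I : Set (MvPolynomial (N × N) ℂ), (∀ p ∈ I, ∀ e, ∃ q : ℚ, p.coeff e = q) ∧
    ∀ h : Matrix N N ℂ, (∃ x ∈ T, ∃ y ∈ T, h = x * y⁻¹) ↔ IsUnit h ∧
      ∀ p ∈ I, MvPolynomial.eval (fun b => h b.1 b.2) p = 0

/-- The Lie algebra generated by the matrices `N_s`: the smallest subspace which contains them and the commutators of its
elements. -/
def lieAlgebra {S : Type} (N : S → Matrix B B ℂ) : Submodule ℂ (Matrix B B ℂ) :=
  sInf {U | (∀ s, N s ∈ U) ∧ ∀ x ∈ U, ∀ y ∈ U, x * y - y * x ∈ U}

/-- The exponential `∑ X ^ k / k!` for matrices `X` which raise the degree; the terms with `k > max d` vanish for them. -/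
def nilExp (d : B → ℕ) (X : Matrix B B ℂ) : Matrix B B ℂ :=
  ∑ k ∈ Finset.range (Finset.univ.sup d + 1), ((k.factorial : ℂ))⁻¹ • X ^ k

variable {g : ℕ}

/-- The index set `Fin (2 * g)` of the de Rham basis: first the `g` differentials `d z_k` of the first kind, then the `g`
differentials `d (∂_k log θ₀)` of the second kind. -/
def split (g : ℕ) : Fin (2 * g) ≃ Fin g ⊕ Fin g := (finCongr (two_mul g)).trans finSumFinEquiv.symm

/-- The period matrix of `A`: the integrals of the differentials `d z_k` and `d (∂_k log θ₀)` over the cycles `lam i`. -/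
def abelianPeriods (A : AbVar g) : Matrix (Fin (2 * g)) (Fin (2 * g)) ℂ :=
  Matrix.of fun i j => Sum.elim (fun k => A.lam i k) (fun k => A.η i k) (split g j)

/-- The lattice of periods of `A`. -/
def lattice (A : AbVar g) : Submodule ℤ (Fin g → ℂ) := Submodule.span ℤ (Set.range A.lam)

/-- The inverse image in `ℂ^g` of `A(F)`: the vectors `z` such that the point with the homogeneous coordinates `θ_i(z)`
is defined over `F`. -/
def points (A : AbVar g) (F : IntermediateField ℚ ℂ) : Set (Fin g → ℂ) :=
  {z | ∃ i, A.θ i z ≠ 0 ∧ ∀ j, A.θ j z / A.θ i z ∈ F}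

/-- `A`, with its embedding and its endomorphisms, is defined over the number field `F`. -/
structure DefinedOver (A : AbVar g) (F : IntermediateField ℚ ℂ) : Prop where
  numberField : FiniteDimensional ℚ F
  /-- the invariant differentials `d z_k` are defined over `F` -/
  differentials : ∀ k i j, ∃ a : Fin (A.N + 1) → Fin (A.N + 1) → ℂ, (∀ p q, a p q ∈ F) ∧
    ∀ z, A.θ i z * pd k (A.θ j) z - A.θ j z * pd k (A.θ i) z = ∑ p, ∑ q, a p q * (A.θ p z * A.θ q z)
  /-- the sum of two points over `F` is a point over `F` -/
  add : ∀ z ∈ points A F, ∀ w ∈ points A F, z + w ∈ points A F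
  /-- the endomorphisms are defined over `F` -/
  endo : ∀ Q : (Fin g → ℂ) →ₗ[ℂ] (Fin g → ℂ), (∀ w ∈ lattice A, Q w ∈ lattice A) → ∀ z ∈ points A F, Q z ∈ points A F

/-- `L` is the transport `F(1)` and `l_i` are the integrals `f_i(1)`: `F' = F ∑ c_i N_i` and `f_i' = c_i` on `[0, 1]`; the
initial value is `F(0) = exp X` with an element `X` of the Lie algebra whose component of degree one is `∑ f_i(0) N_i`. -/
def IsTransport {S : Type} [Fintype S] (d : B → ℕ) (N : S → Matrix B B ℂ) (l : S → ℂ) (L : Matrix B B ℂ) : Prop :=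
  ∃ (c f : S → ℝ → ℂ) (F : ℝ → Matrix B B ℂ) (X : Matrix B B ℂ),
    (∀ s, ∀ t ∈ Set.Icc (0 : ℝ) 1, HasDerivWithinAt (f s) (c s t) (Set.Icc 0 1) t) ∧
    (∀ t ∈ Set.Icc (0 : ℝ) 1, ∀ b b',
      HasDerivWithinAt (fun t => F t b b') ((F t * ∑ s, c s t • N s) b b') (Set.Icc 0 1) t) ∧
    X ∈ lieAlgebra N ∧ (∀ b b', d b' ≤ d b + 1 → X b b' = ∑ s, f s 0 * N s b b') ∧ F 0 = nilExp d X ∧
    (∀ s, l s = f s 1) ∧ L = F 1

/-- `L` and `l` are limits of transports (for example, of a constant sequence). -/
def IsLimitTransport {S : Type} [Fintype S] (d : B → ℕ) (N : S → Matrix B B ℂ) (l : S → ℂ) (L : Matrix B B ℂ) : Prop :=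
  ∃ (lj : ℕ → S → ℂ) (Lj : ℕ → Matrix B B ℂ), (∀ j, IsTransport d N (lj j) (Lj j)) ∧
    (∀ s, Filter.Tendsto (fun j => lj j s) Filter.atTop (nhds (l s))) ∧
    ∀ b b', Filter.Tendsto (fun j => Lj j b b') Filter.atTop (nhds (L b b'))

/-- The properties of the period matrix `C` of the motive `M_a`, with the operation `N_i` of the basis of `H_1(A)`. -/
structure IsUnipotent (A : AbVar g) (d : B → ℕ) (o : B) (N : Fin (2 * g) → Matrix B B ℂ) (C : Matrix B B ℂ) :
    Prop where
  invertible : IsUnit C
  /-- the filtration by the powers of the augmentation ideal -/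
  lower : ∀ b b', d b' < d b → C b b' = 0
  /-- the unit `o` is the only element of the basis of degree `0` -/
  unit : d o = 0 ∧ C o o = 1 ∧ ∀ b, d b = 0 → b = o
  alg : ∀ i b b', IsAlgebraic ℚ (N i b b')
  /-- `N_i` raises the degree by one -/
  deg : ∀ i b b', d b' ≠ d b + 1 → N i b b' = 0
  /-- the module is generated by the unit -/
  cyclic : ∀ b, b ≠ o → (Pi.single b 1 : B → ℂ) ∈ Submodule.span ℂ {v | ∃ (w : B → ℂ) (i : Fin (2 * g)), v = w ᵥ* N i}
  /-- There are loops, given by two paths with transports `L` and `L'` from the base point to the same point, which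
  represent the basis of the lattice, and the monodromy `C L L'⁻¹ C⁻¹` in the Betti basis is rational. -/
  loops : ∀ k, ∃ (l l' : Fin (2 * g) → ℂ) (L L' : Matrix B B ℂ), IsLimitTransport d N l L ∧ IsLimitTransport d N l' L' ∧
    (∀ i, l i - l' i = abelianPeriods A k i) ∧ ∀ b b', ∃ q : ℚ, (C * L * L'⁻¹ * C⁻¹) b b' = q

/-- `M_a / I³` is a direct summand of `M₀`, and the Lie algebra acts faithfully on the unit in degree two. -/
structure IsSummand {m : ℕ} (C₀ : Matrix (Fin m) (Fin m) ℂ) (d : B → ℕ) (o : B) (N : Fin (2 * g) → Matrix B B ℂ)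
    (C : Matrix B B ℂ) : Prop where
  summand : ∃ σ : {b : B // d b ≤ 2} → Fin m, Function.Injective σ ∧ (∀ b b', C₀ (σ b) (σ b') = C b.1 b'.1) ∧
    ∀ b i, (∀ b', i ≠ σ b') → C₀ (σ b) i = 0 ∧ C₀ i (σ b) = 0
  faithful : ∀ D ∈ lieAlgebra N, (∀ b b', d b' ≠ d b + 2 → D b b' = 0) → (∀ b, D o b = 0) → D = 0

open Pool.Agent.X306.MT in
/-- limits of transports are exponentials of elements of the Lie algebra -/
theorem exp_of_limit {S : Type} [Fintype S] {d : B → ℕ} {N : S → Matrix B B ℂ} (hD1 : Deg1 d N) {l : S → ℂ}
    {L : Matrix B B ℂ} (hL : IsLimitTransport d N l L) : ∃ ell ∈ nn N, L = ex d ell ∧ ell - ∑ s, l s • N s ∈ Ge d 2 := by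
  have hlie : lieAlgebra N = nn N := lieGen_eq
  obtain ⟨lj, Lj, h1, h2, h3⟩ := hL
  have h4 : ∀ j, ∃ Z ∈ nn N, Lj j = ex d Z ∧ Z - ∑ s, lj j s • N s ∈ Ge d 2 := by
    intro j
    obtain ⟨c, f, F, X, h5, h6, h7, h8, h9, h10, h11⟩ := h1 j
    obtain ⟨ell, h12, h13, h14⟩ := sol_exp (d := d) (N := N) hD1 (F := F) (c := c) (f := f)
      (ℓ₀ := X) (hlie ▸ h7) (by
        intro b b' hb
        rw [Matrix.sub_apply, h8 b b' (by omega), Matrix.sum_apply, sub_eq_zero]
        exact Finset.sum_congr rfl fun s _ => rfl) h5 h6 h9
    refine ⟨ell, h12, by rw [h11, h13], ?_⟩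
    simp only [h10]
    exact h14
  choose Z hZ1 hZ2 hZ3 using h4
  exact exp_closed (d := d) (N := N) hD1 hZ1 (L := L) (by
    intro b b'
    simp only [← hZ2]
    exact h3 b b') h2 hZ3

open Pool.Agent.X306.MT Pool.Agent.X306.CV in
/-- **Main theorem.** Let `A` be an abelian variety, `C₀` an arbitrary invertible matrix of size `m` (the period matrix of
any motive of rank `m`), and `u j` abelian logarithms of algebraic points of `A` which are linearly independent over
`End A`, with integrals `e j` of the second kind. There is a set `E` of at most `m² / (8 h)` indices `j` such that, for all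
finite sets `K` of other indices, for all period matrices `C` of unipotent objects `M_a` with Lie algebra `𝔫` (with a
splitting in degree one, or such that `M_a / I³` is a direct summand of the motive with the period matrix `C₀`), and the
transports `L_j` with the integrals `u j` and `e j`: every subtorsor over the algebraic numbers, with a group defined over
`ℚ`, which contains the period matrix `C₀ ⊕ C ⊕ ⨁_j C L_j` is stable under the matrices `1 ⊕ 1 ⊕ ⨁_j C exp(n_j) C⁻¹`,
`n_j ∈ 𝔫`. -/
theorem result (A : AbVar g) {m : ℕ} (C₀ : Matrix (Fin m) (Fin m) ℂ) (h₀ : IsUnit C₀) {J : Type} [DecidableEq J]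
    (u e : J → Fin g → ℂ)
    (hu : ∀ K : Finset J, ∃ F : IntermediateField ℚ ℂ, DefinedOver A F ∧ ∀ j ∈ K, u j ∈ points A F)
    (hind : ∀ (K : Finset J) (Q : K → (Fin g → ℂ) →ₗ[ℂ] (Fin g → ℂ)), (∀ j, ∀ w ∈ lattice A, Q j w ∈ lattice A) →
      ∑ j, Q j (u j) ∈ lattice A → ∀ j, Q j = 0)
    (h : ℕ) (hrank : ∀ Q : (Fin g → ℂ) →ₗ[ℂ] (Fin g → ℂ), (∀ w ∈ lattice A, Q w ∈ lattice A) → Q ≠ 0 →
      h ≤ Module.finrank ℂ (LinearMap.range Q)) :
    ∃ E : Finset J, 8 * h * E.card ≤ m ^ 2 ∧ ∀ K : Finset J, Disjoint K E →
      ∀ (B : Type) [Fintype B] [DecidableEq B] (d : B → ℕ) (o : B) (N : Fin (2 * g) → Matrix B B ℂ) (C : Matrix B B ℂ),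
      IsUnipotent A d o N C → ((∀ b b', d b' = d b + 1 → C b b' = 0) ∨ IsSummand C₀ d o N C) →
      ∀ L : K → Matrix B B ℂ, (∀ j : K, IsLimitTransport d N (fun i => Sum.elim (u j) (e j) (split g i)) (L j)) →
      ∀ T : Set (Matrix (Fin m ⊕ (B ⊕ (B × K))) (Fin m ⊕ (B ⊕ (B × K))) ℂ), IsTorsor T → GroupOverQ T →
        fromBlocks C₀ 0 0 (fromBlocks C 0 0 (blockDiagonal fun j => C * L j)) ∈ T →
        ∀ n : K → Matrix B B ℂ, (∀ j, n j ∈ lieAlgebra N) → ∀ x ∈ T,
          fromBlocks 1 0 0 (fromBlocks 1 0 0 (blockDiagonal fun j => C * nilExp d (n j) * C⁻¹)) * x ∈ T := by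
  classical
  obtain ⟨E, hE1, hE2⟩ := Pool.Agent.KS6_11.G.capA (A := A) C₀ u e (fun K => by
    obtain ⟨F, hF, hK⟩ := hu K
    exact ⟨F, ⟨hF.numberField, hF.differentials, hF.add, hF.endo⟩, hK⟩) hind hrank
  rw [Fintype.card_fin] at hE1
  refine ⟨E, hE1, ?_⟩
  intro K hK B _ _ d o N C hC hsp L hL T hT hG hP n hn x hx
  have hT' : Pool.Agent.TH127.PT.IsSubtorsor Pool.Agent.W245.EB.QB T := by
    obtain ⟨I, h1, h2⟩ := hT.algebraic
    exact ⟨fun x hx => ((h2 x).1 hx).1, hT.closed, I,
      fun p hp e => (Pool.Agent.X306.EM.QB_iff _).1 (h1 p hp e), h2⟩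
  have hG' : Pool.Agent.X306.RL.GDef Pool.Agent.X306.EM.QQ T := by
    obtain ⟨I, hI1, hI2⟩ := hG
    exact ⟨I, fun p hp m => by
      obtain ⟨q, hq⟩ := hI1 p hp m
      exact Pool.Agent.X306.EM.mem_QQ.2 ⟨q, hq.symm⟩, hI2⟩
  have hlam : ∀ i, A.per (A.bas i) = A.lam i := fun i => by
    rw [Pool.Agent.X306.AV.bas_eq, Pool.Agent.X306.AV.lam_per]
  have heta : ∀ i, A.eta (A.bas i) = A.η i := fun i => by
    rw [Pool.Agent.X306.AV.bas_eq]
    unfold AbVar.eta
    rw [Fintype.linearCombination_apply, Finset.sum_eq_single i]
    · rw [Pi.single_eq_same, one_smul]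
    · intro k _ hk
      rw [Pi.single_eq_of_ne hk, zero_smul]
    · intro h
      exact absurd (Finset.mem_univ _) h
  have hPA : abelianPeriods A = Pool.Agent.X306.AV.PA A := by
    ext i j
    change Sum.elim (fun k => A.lam i k) (fun k => A.η i k) (split g j) = A.dR (split g j) (A.bas i)
    rcases split g j with k | k
    · change A.lam i k = A.per (A.bas i) k
      rw [hlam]
    · change A.η i k = A.eta (A.bas i) k
      rw [heta]
  have hlie : lieAlgebra N = nn N := lieGen_eq
  have hexp : ∀ X, nilExp d X = ex d X := fun X => rfl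
  have hD1 : Deg1 d N := hC.deg
  have low : C ∈ Ge d 0 := fun b b' h => hC.lower b b' (by omega)
  have hbi : Bi d C := Bi.of_low hC.invertible low
  -- the loops
  have ht : ∀ k, ∃ t ∈ nn N, t - ∑ i, Pool.Agent.X306.AV.PA A k i • N i ∈ Ge d 2 ∧
      Pool.Agent.X306.MZ.InK Pool.Agent.X306.EM.QQ (C * t * C⁻¹) := by
    intro k
    obtain ⟨l₁, l₂, L₁, L₂, e1, e2, e3, e4⟩ := hC.loops k
    obtain ⟨X, e5, e6, e7⟩ := exp_of_limit hD1 e1
    obtain ⟨Y, e8, e9, e10⟩ := exp_of_limit hD1 e2
    obtain ⟨t, e11, e12, e13⟩ := Pool.Agent.KS6_11.loop_log hD1 e5 e8 e7 e10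
    refine ⟨t, e11, ?_, Pool.Agent.KS6_11.log_mem hbi (nn_Ge hD1 e11) fun b b' => ?_⟩
    · simp only [e3, hPA] at e13
      exact e13
    · rw [← e12, ← e6, ← e9]
      obtain ⟨q, hq⟩ := e4 b b'
      rw [← Matrix.mul_assoc, hq]
      exact Pool.Agent.X306.EM.mem_QQ.2 ⟨q, rfl⟩
  choose t ht1 ht2 ht3 using ht
  have hLp : Pool.Agent.KS6_11.G.Lp d N C (Pool.Agent.X306.AV.PA A) t := ⟨hbi, hD1, ht1, ht2, ht3⟩
  have H := hLp.fn (o := o) (Pool.Agent.X306.AV.inv_PA A) (Pool.Agent.X306.AV.PA_inv A) hC.invertible low hC.unit.1
    hC.unit.2.2 hC.unit.2.1 hC.alg hC.cyclic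
  -- the transports
  have h1 : ∀ j : K, ∃ ell ∈ nn N, L j = ex d ell ∧ ell - nbv N (ll (fun k : K => u k.1) (fun k : K => e k.1) j) ∈ Ge d 2 :=
    fun j => exp_of_limit hD1 (hL j)
  choose ell h2 h3 h4 using h1
  have hP' : fromBlocks C₀ 0 0 (fromBlocks C 0 0 (blockDiagonal fun r => C * ex d (ell r))) ∈ T := by
    simp only [← h3]
    exact hP
  rcases hsp with hsp | hsp
  · exact Pool.Agent.KS6_11.G.main H hT' hG' h₀ (Pool.Agent.KS6_11.G.Lk_O hbi hsp) h2 h4 hP' (hE2 K hK)
      (fun y Y V h => Pool.Agent.KS6_11.G.small_O H h) (fun j => hlie ▸ hn j) hx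
  · obtain ⟨σ, hσ, s1, s2⟩ := hsp.summand
    have hlk : Pool.Agent.KS6_11.G.lkS d σ C₀ C := ⟨fun b b' => (s1 b b').symm, s2⟩
    exact Pool.Agent.KS6_11.G.main H hT' hG' h₀ (Pool.Agent.KS6_11.G.Lk_S hσ h₀ hbi hlk) h2 h4 hP' (hE2 K hK)
      (fun y Y V h => Pool.Agent.KS6_11.G.small_S H
        (fun D hD h5 h6 => hsp.faithful D (hlie ▸ hD) (fun b b' hb => h5 b b' hb) h6) h) (fun j => hlie ▸ hn j) hx

end Pool.Agent.Results.MP_5d33ca_ag.IteratedIntegralsOverAnyMotive
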