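import Pool.Agent.KS6_11.TateMain
import Pool.Agent.KS6_11.Mon

/-!
# Multiple polylogarithms relative to an arbitrary motive

Let `X` be a smooth variety over the field `ℚ̄` of algebraic numbers, for example `ℙ¹ ∖ {0, 1, ∞}`, `ℙ¹` without finitely
many points, or the moduli space `M_{0, n}`, and let `M` be a unipotent variation of mixed Tate motives over `X` whose
connection has the form `d + ∑ N_s dlog g_s` in the graded de Rham frame, with units `g_s` of `X` (`s : S`). So `M` can be
the variation of all multiple polylogarithms of weight at most `n`, or of all iterated integrals of length at most `n` of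
the forms `dz / (z - s)`; the fibres `M_b` are then the (truncated) path torsors from a base point `a` to the points `b`.
We take a base point `a` over `ℚ̄`, or a tangential base point, and points `b_j ∈ X(ℚ̄)`, `j : J`, where the set `J` can be
infinite. Let `M₀` be **any** motive over `ℚ̄`, of rank `m`, without hypotheses: it can be mixed, with arbitrary weights,
and it can contain the motives `M_{b_j}`.

The period matrix of `M₀ ⊕ M_a ⊕ ⨁_{j ∈ K} M_{b_j}`, for a finite subset `K` of `J`, has the following shape (rows: Betti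
side, columns: de Rham side): `C₀ ⊕ C ⊕ ⨁_{j ∈ K} C L_j`, with the period matrix `C₀` of `M₀`. There are degrees
`d : B → ℕ` for the elements `b` of the basis of `M_a` (of type `ℚ(d b)`), and

* `C` is the period matrix of `M_a`: it is triangular with respect to the degrees, the blocks of the same degree are the
  multiples `(2πi)^d` of the unit matrix, and the entries in the next degree are `(2πi)^d λ` with logarithms `λ` of
  algebraic numbers, in a fixed space `Lam` of logarithms of algebraic numbers (`IsMixedTate`; for multiple zeta values one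
  can take `Lam = ℚ · 2πi`). There is no hypothesis for the entries of higher degree.
* The matrices `N_s` have algebraic entries and degree one. The local system of the variation is defined over `ℚ`: the
  monodromy matrices `C T_γ C⁻¹` along the loops `γ` at the base point have rational entries. We use this only for some
  loops `γ_s`, for `s : S`, which have a non-zero winding number for the function `g_s` only, and write the monodromy as
  `T_γ = L L'⁻¹` with the transports `L` and `L'` along two paths from the base point to the same point (`IsVariation`).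
  Let `𝔫` be the Lie algebra generated by the `N_s` (`lieAlgebra`); `C 𝔫 C⁻¹` is the Lie algebra of the Zariski closure of
  the monodromy group.
* The period matrix of `M_{b_j}` is `C L_j` with the transport `L_j` from `a` to `b_j`: the value `F(1)` of the solution of
  `F' = F ∑ N_s g_s'/g_s` along a path (`IsTransport`), with `F(0) = 1`, or, for a tangential base point, with
  `F(0) = exp X`, `X ∈ 𝔫`, or a limit of such matrices (`IsLimitTransport`). The entries of `L_j` are the iterated
  integrals of the forms `dlog g_s`, for example the values of the multiple polylogarithms at `b_j`; let `l j s` be the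
  corresponding values `∫ dlog g_s` of the logarithms.

**Theorem.** Suppose that the logarithms `l j s`, for `j : J` and `s : S`, are linearly independent over `ℚ` modulo `Lam`
(the algebraic numbers `exp (l j s) = g_s(b_j) / g_s(a)` are multiplicatively independent modulo the ones which belong to
the extensions in `M_a`). Then there is a set `E ⊆ J` with at most `m² / 4` elements, which depends only on `C₀`, `Lam` and
the `l j s`, such that the following holds for all finite subsets `K` of `J ∖ E` and for all unipotent variations `M` as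
above (for example, for the path torsors modulo `I^n`, for all `n`): every subtorsor `T` over `ℚ̄` which contains the period
matrix of `M₀ ⊕ M_a ⊕ ⨁_{j ∈ K} M_{b_j}` is stable under the unipotent group of all `1 ⊕ 1 ⊕ ⨁_j C exp(n_j) C⁻¹`,
`n_j ∈ 𝔫`.

The fibres of the motivic torsor of `M₀ ⊕ M_a ⊕ ⨁ M_{b_j}` over the motivic torsor of `M₀ ⊕ M_a` are contained in the orbits
of this group (the path torsors of the motivic fundamental group, Deligne-Goncharov). So for the motivic torsor, the torsor
of formal periods and the de Rham-Betti torsor the fibres over the torsor of `M₀ ⊕ M_a` are equal, as Grothendieck's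
conjecture predicts: with at most `m² / 4` exceptions among the points `b_j`, there are no relations over the periods of
`M₀` and `M_a` between the iterated integrals at the points `b_j`, of all lengths, other than the shuffle relations, among
the relations which define a subtorsor. The number of exceptions does not depend on the length of the integrals, and the
bound `m² / 4` is attained by extensions of `ℚ(0)^(m/2)` by `ℚ(1)^(m/2)`, which contain `m² / 4` of the logarithms.
-/

set_option autoImplicit false

open Matrix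

noncomputable section

namespace Pool.Agent.Results.MP_5d33ca_ag.PolylogarithmsOverAnyMotive

/-- `T` is a subtorsor over the field of algebraic numbers: it is the set of the invertible zeros of a set of
polynomials with algebraic coefficients, and closed under `x y⁻¹ z`. -/
structure IsTorsor {N : Type} [Fintype N] [DecidableEq N] (T : Set (Matrix N N ℂ)) : Prop where
  algebraic : ∃ I : Set (MvPolynomial (N × N) ℂ), (∀ p ∈ I, ∀ e, IsAlgebraic ℚ (p.coeff e)) ∧
    ∀ x : Matrix N N ℂ, x ∈ T ↔ IsUnit x ∧ ∀ p ∈ I, MvPolynomial.eval (fun b => x b.1 b.2) p = 0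
  closed : ∀ x ∈ T, ∀ y ∈ T, ∀ z ∈ T, x * y⁻¹ * z ∈ T

variable {B S : Type} [Fintype B] [DecidableEq B] [Fintype S]

/-- The Lie algebra generated by the matrices `N_s`: the smallest subspace which contains them and the commutators of its
elements. -/
def lieAlgebra (N : S → Matrix B B ℂ) : Submodule ℂ (Matrix B B ℂ) :=
  sInf {U | (∀ s, N s ∈ U) ∧ ∀ x ∈ U, ∀ y ∈ U, x * y - y * x ∈ U}

/-- The exponential `∑ X ^ k / k!` for matrices `X` which raise the degree; the terms with `k > max d` vanish for them. -/
def nilExp (d : B → ℕ) (X : Matrix B B ℂ) : Matrix B B ℂ :=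
  ∑ k ∈ Finset.range (Finset.univ.sup d + 1), ((k.factorial : ℂ))⁻¹ • X ^ k

/-- The shape of the period matrix of a mixed Tate motive over the algebraic numbers, with logarithms of algebraic numbers
from `Lam` in degree one. -/
structure IsMixedTate (d : B → ℕ) (Lam : Submodule ℚ ℂ) (C : Matrix B B ℂ) : Prop where
  lower : ∀ b b', d b' < d b → C b b' = 0
  diag : ∀ b b', d b' = d b → C b b' = if b = b' then (2 * Real.pi * Complex.I) ^ d b else 0
  one : ∀ b b', d b' = d b + 1 → ∃ z ∈ Lam, C b b' = (2 * Real.pi * Complex.I) ^ d b * z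

/-- `L` is the transport `F(1)` and `l_s` are the logarithms `f_s(1)`: `F' = F ∑ N_s g_s' / g_s` and `f_s' = g_s' / g_s` on
`[0, 1]`, with functions `g_s` without zeros; the initial value is `F(0) = exp X` with an element `X` of the Lie algebra
whose component of degree one is `∑ f_s(0) N_s`. -/
def IsTransport (d : B → ℕ) (N : S → Matrix B B ℂ) (l : S → ℂ) (L : Matrix B B ℂ) : Prop :=
  ∃ (g g' f : S → ℝ → ℂ) (F : ℝ → Matrix B B ℂ) (X : Matrix B B ℂ),
    (∀ s, ∀ t ∈ Set.Icc (0 : ℝ) 1, g s t ≠ 0 ∧ HasDerivWithinAt (g s) (g' s t) (Set.Icc 0 1) t ∧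
      HasDerivWithinAt (f s) (g' s t / g s t) (Set.Icc 0 1) t) ∧
    (∀ t ∈ Set.Icc (0 : ℝ) 1, ∀ b b',
      HasDerivWithinAt (fun t => F t b b') ((F t * ∑ s, (g' s t / g s t) • N s) b b') (Set.Icc 0 1) t) ∧
    X ∈ lieAlgebra N ∧ (∀ b b', d b' ≤ d b + 1 → X b b' = ∑ s, f s 0 * N s b b') ∧ F 0 = nilExp d X ∧
    (∀ s, l s = f s 1) ∧ L = F 1

/-- `L` and `l` are limits of transports (for example, of a constant sequence). -/
def IsLimitTransport (d : B → ℕ) (N : S → Matrix B B ℂ) (l : S → ℂ) (L : Matrix B B ℂ) : Prop :=
  ∃ (lj : ℕ → S → ℂ) (Lj : ℕ → Matrix B B ℂ), (∀ j, IsTransport d N (lj j) (Lj j)) ∧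
    (∀ s, Filter.Tendsto (fun j => lj j s) Filter.atTop (nhds (l s))) ∧
    ∀ b b', Filter.Tendsto (fun j => Lj j b b') Filter.atTop (nhds (L b b'))

/-- The matrices `N_s` have algebraic entries and raise the degree by one, and for every `s` there are two paths from the
base point to the same point, with transports `L` and `L'`, such that the integral of `dlog g_{s'}` over the corresponding
loop does not vanish only for `s' = s`, and the matrix `C L L'⁻¹ C⁻¹` of the monodromy along the loop, in the Betti basis,
has rational entries. -/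
structure IsVariation (d : B → ℕ) (C : Matrix B B ℂ) (N : S → Matrix B B ℂ) : Prop where
  alg : ∀ s b b', IsAlgebraic ℚ (N s b b')
  deg : ∀ s b b', d b' ≠ d b + 1 → N s b b' = 0
  loops : ∀ s, ∃ (l l' : S → ℂ) (L L' : Matrix B B ℂ), IsLimitTransport d N l L ∧ IsLimitTransport d N l' L' ∧
    (∀ s', l s' ≠ l' s' ↔ s' = s) ∧ ∀ b b', ∃ q : ℚ, (C * L * L'⁻¹ * C⁻¹) b b' = q

open Pool.Agent.X306.MT in
/-- limits of transports are exponentials of elements of the Lie algebra -/
theorem exp_of_limit {d : B → ℕ} {N : S → Matrix B B ℂ} (hD1 : Deg1 d N) {l : S → ℂ} {L : Matrix B B ℂ}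
    (hL : IsLimitTransport d N l L) : ∃ ell ∈ nn N, L = ex d ell ∧ ell - ∑ s, l s • N s ∈ Ge d 2 := by
  have hlie : lieAlgebra N = nn N := lieGen_eq
  obtain ⟨lj, Lj, h1, h2, h3⟩ := hL
  have h4 : ∀ j, ∃ Z ∈ nn N, Lj j = ex d Z ∧ Z - ∑ s, lj j s • N s ∈ Ge d 2 := by
    intro j
    obtain ⟨g, g', f, F, X, h5, h6, h7, h8, h9, h10, h11⟩ := h1 j
    obtain ⟨ell, h12, h13, h14⟩ := sol_exp (d := d) (N := N) hD1 (F := F) (c := fun s t => g' s t / g s t) (f := f)
      (ℓ₀ := X) (hlie ▸ h7) (by
        intro b b' hb
        rw [Matrix.sub_apply, h8 b b' (by omega), Matrix.sum_apply, sub_eq_zero]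
        exact Finset.sum_congr rfl fun s _ => rfl)
      (fun s t ht => (h5 s t ht).2.2) h6 h9
    refine ⟨ell, h12, by rw [h11, h13], ?_⟩
    simp only [h10]
    exact h14
  choose Z hZ1 hZ2 hZ3 using h4
  exact exp_closed (d := d) (N := N) hD1 hZ1 (L := L) (by
    intro b b'
    simp only [← hZ2]
    exact h3 b b') h2 hZ3

open Pool.Agent.X306.MT Pool.Agent.X306.CV in
/-- **Main theorem.** Let `C₀` be an arbitrary invertible matrix of size `m` (the period matrix of any motive of rank `m`),
`Lam` a space of logarithms of algebraic numbers which contains `2πi`, and `l j s` logarithms of algebraic numbers which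
are linearly independent modulo `Lam`. There is a set `E` of at most `m² / 4` indices `j` such that, for all finite sets
`K` of other indices, for all period matrices `C` of mixed Tate motives with extensions given by `Lam`, all unipotent
variations with Lie algebra `𝔫`, and the transports `L_j` with the logarithms `l j s`: every subtorsor over the algebraic
numbers which contains the period matrix `C₀ ⊕ C ⊕ ⨁_j C L_j` is stable under the matrices
`1 ⊕ 1 ⊕ ⨁_j C exp(n_j) C⁻¹`, `n_j ∈ 𝔫`. -/
theorem result {m : ℕ} (C₀ : Matrix (Fin m) (Fin m) ℂ) (h₀ : IsUnit C₀) (Lam : Submodule ℚ ℂ)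
    (hLam : 2 * Real.pi * Complex.I ∈ Lam) (hexp : ∀ z ∈ Lam, IsAlgebraic ℚ (Complex.exp z))
    {J S : Type} [DecidableEq J] [Fintype S] (l : J → S → ℂ) (hl : ∀ j s, IsAlgebraic ℚ (Complex.exp (l j s)))
    (hind : ∀ (s : Finset (J × S)) (q : J × S → ℚ), ∑ p ∈ s, (q p : ℂ) * l p.1 p.2 ∈ Lam → ∀ p ∈ s, q p = 0) :
    ∃ E : Finset J, 4 * E.card ≤ m ^ 2 ∧ ∀ K : Finset J, Disjoint K E →
      ∀ (B : Type) [Fintype B] [DecidableEq B] (d : B → ℕ) (C : Matrix B B ℂ), IsMixedTate d Lam C →
      ∀ N : S → Matrix B B ℂ, IsVariation d C N →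
      ∀ L : K → Matrix B B ℂ, (∀ j : K, IsLimitTransport d N (l j) (L j)) →
      ∀ T : Set (Matrix (Fin m ⊕ (B ⊕ (B × K))) (Fin m ⊕ (B ⊕ (B × K))) ℂ), IsTorsor T →
        fromBlocks C₀ 0 0 (fromBlocks C 0 0 (blockDiagonal fun j => C * L j)) ∈ T →
        ∀ n : K → Matrix B B ℂ, (∀ j, n j ∈ lieAlgebra N) → ∀ x ∈ T,
          fromBlocks 1 0 0 (fromBlocks 1 0 0 (blockDiagonal fun j => C * nilExp d (n j) * C⁻¹)) * x ∈ T := by
  classical
  obtain ⟨E, hE1, hE2⟩ := Pool.Agent.KS6_11.tate_main C₀ h₀ Lam hLam hexp l hl hind
  refine ⟨E, hE1, ?_⟩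
  intro K hK B _ _ d C hC N hN L hL T hT hP n hn x hx
  have hT' : Pool.Agent.TH127.PT.IsSubtorsor Pool.Agent.W245.EB.QB T := by
    obtain ⟨I, h1, h2⟩ := hT.algebraic
    exact ⟨fun x hx => ((h2 x).1 hx).1, hT.closed, I,
      fun p hp e => (Pool.Agent.X306.EM.QB_iff _).1 (h1 p hp e), h2⟩
  have hlie : lieAlgebra N = nn N := lieGen_eq
  have hexp' : ∀ X, nilExp d X = ex d X := fun X => rfl
  have hw : (2 * Real.pi * Complex.I : ℂ) ≠ 0 := Complex.two_pi_I_ne_zero
  have hTri : Tri d (2 * Real.pi * Complex.I) C := ⟨hw, hC.lower, hC.diag⟩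
  have hbi : Bi d C := Pool.Agent.KS6_11.Tri.bi hTri
  have hD1 : Deg1 d N := fun s b b' h => hN.deg s b b' h
  have h1 : ∀ j : K, ∃ ell ∈ nn N, L j = ex d ell ∧ ell - ∑ s, l j.1 s • N s ∈ Ge d 2 :=
    fun j => exp_of_limit hD1 (hL j)
  choose ell h2 h3 h4 using h1
  refine hE2 K hK B d C hTri hC.one N hN.alg hD1 ?_ ell h2 h4 T hT' ?_ n (fun j => hlie ▸ hn j) x hx
  · refine Pool.Agent.KS6_11.defK_of hbi hD1 fun s => ?_
    obtain ⟨l₁, l₂, L₁, L₂, e1, e2, e3, e4⟩ := hN.loops s
    obtain ⟨X, e5, e6, e7⟩ := exp_of_limit hD1 e1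
    obtain ⟨Y, e8, e9, e10⟩ := exp_of_limit hD1 e2
    obtain ⟨t, e11, e12, e13⟩ := Pool.Agent.KS6_11.loop_log hD1 e5 e8 e7 e10
    have hne : l₁ s - l₂ s ≠ 0 := sub_ne_zero.2 ((e3 s).2 rfl)
    refine ⟨(l₁ s - l₂ s)⁻¹, t, e11, Pool.Agent.KS6_11.log_mem hbi (nn_Ge hD1 e11) fun b b' => ?_, ?_⟩
    · rw [← e12, ← e6, ← e9]
      obtain ⟨q, hq⟩ := e4 b b'
      rw [← Matrix.mul_assoc, hq]
      exact (Pool.Agent.X306.EM.QB_iff _).1 (isAlgebraic_algebraMap (R := ℚ) (A := ℂ) q)
    · have e14 : ∑ s', (l₁ s' - l₂ s') • N s' = (l₁ s - l₂ s) • N s := by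
        refine Finset.sum_eq_single s (fun s' _ hs' => ?_) fun h => absurd (Finset.mem_univ _) h
        have e15 : l₁ s' = l₂ s' := by
          by_contra h
          exact hs' ((e3 s').1 h)
        rw [e15, sub_self, zero_smul]
      rw [e14] at e13
      have e16 := (Ge d 2).smul_mem (l₁ s - l₂ s)⁻¹ e13
      rwa [smul_sub, smul_smul, inv_mul_cancel₀ hne, one_smul] at e16
  · refine (congrArg (· ∈ T) ?_).mp hP
    unfold Pool.Agent.KS6_11.pc
    simp only [h3]

end Pool.Agent.Results.MP_5d33ca_ag.PolylogarithmsOverAnyMotive
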